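import Mathlib

set_option autoImplicit false

open scoped InnerProductSpace
open Filter Topology

namespace Pool.Agent.H.MP_908b95_an

section general
variable {E F : Type*} [NormedAddCommGroup E] [InnerProductSpace ℂ E] [CompleteSpace E]
  [NormedAddCommGroup F] [InnerProductSpace ℂ F] [CompleteSpace F]

omit [CompleteSpace E] in
theorem exists_iso {ι : Type*} (b : HilbertBasis ι ℂ E) (v : ι → F) (hv : Orthonormal ℂ v) :
    ∃ W : E →L[ℂ] F, (∀ i, W (b i) = v i) ∧ ∀ x y, ⟪W x, W y⟫_ℂ = ⟪x, y⟫_ℂ := by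
  classical
  let W : E →ₗᵢ[ℂ] F := hv.orthogonalFamily.linearIsometry.comp b.repr.toLinearIsometry
  refine ⟨W.toContinuousLinearMap, fun i => ?_, fun x y => W.inner_map_map x y⟩
  change hv.orthogonalFamily.linearIsometry (b.repr (b i)) = v i
  rw [b.repr_self, OrthogonalFamily.linearIsometry_apply_single]
  simp

omit [CompleteSpace E] in
theorem clm_ext {ι : Type*} (b : HilbertBasis ι ℂ E) {G : Type*} [NormedAddCommGroup G]
    [NormedSpace ℂ G] (A B : E →L[ℂ] G) (h : ∀ i, A (b i) = B (b i)) : A = B := by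
  refine ContinuousLinearMap.ext_on (s := Set.range b) ?_ ?_
  · rw [Submodule.dense_iff_topologicalClosure_eq_top]; exact b.dense_span
  · rintro _ ⟨i, rfl⟩; exact h i

omit [CompleteSpace E] in
theorem vec_ext {ι : Type*} (b : HilbertBasis ι ℂ E) (x y : E)
    (h : ∀ i, ⟪b i, x⟫_ℂ = ⟪b i, y⟫_ℂ) : x = y := by
  apply b.repr.injective
  ext i
  rw [b.repr_apply_apply, b.repr_apply_apply, h]

omit [CompleteSpace E] [CompleteSpace F] in
theorem norm_of_inner (W : E →L[ℂ] F) (h : ∀ x y, ⟪W x, W y⟫_ℂ = ⟪x, y⟫_ℂ) (x : E) :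
    ‖W x‖ = ‖x‖ := by
  have := h x x
  rw [inner_self_eq_norm_sq_to_K, inner_self_eq_norm_sq_to_K] at this
  have h2 : ‖W x‖ ^ 2 = ‖x‖ ^ 2 := by exact_mod_cast this
  exact (sq_eq_sq₀ (norm_nonneg _) (norm_nonneg _)).1 h2

omit [CompleteSpace E] [CompleteSpace F] in
theorem opNorm_of_inner (W : E →L[ℂ] F) (h : ∀ x y, ⟪W x, W y⟫_ℂ = ⟪x, y⟫_ℂ) : ‖W‖ ≤ 1 :=
  W.opNorm_le_bound zero_le_one fun x => by rw [norm_of_inner W h, one_mul]

omit [CompleteSpace E] in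
theorem inner_basis {ι : Type*} [DecidableEq ι] (b : HilbertBasis ι ℂ E) (i j : ι) :
    ⟪b i, b j⟫_ℂ = if i = j then 1 else 0 :=
  orthonormal_iff_ite.1 b.orthonormal i j

end general

/-- Shift data on a Hilbert space with a basis indexed by the naturals. -/
structure Data (E : Type*) [NormedAddCommGroup E] [InnerProductSpace ℂ E] where
  e : HilbertBasis ℕ ℂ E
  S : E →L[ℂ] E
  V : E →L[ℂ] E
  hS : ∀ n, S (e n) = e (n + 1)
  hV : ∀ n, V (e n) = ((n : ℂ) + 1)⁻¹ • e (n + 1)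
  hSi : ∀ x y, ⟪S x, S y⟫_ℂ = ⟪x, y⟫_ℂ

variable {E : Type*} [NormedAddCommGroup E] [InnerProductSpace ℂ E] [CompleteSpace E]

omit [CompleteSpace E] in
theorem orth_twist (e : HilbertBasis ℕ ℂ E) (u : ℕ → ℂ) (hu : ∀ n, ‖u n‖ = 1) (s : ℕ → ℕ)
    (hs : Function.Injective s) : Orthonormal ℂ (fun n => u n • e (s n)) := by
  rw [orthonormal_iff_ite]
  intro i j
  rw [inner_smul_left, inner_smul_right, inner_basis]
  by_cases h : i = j
  · subst h
    simp only [if_true, mul_one]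
    rw [Complex.conj_mul', hu]; simp
  · rw [if_neg h, if_neg (fun h' => h (hs h'))]; simp

theorem nonempty_data (e : HilbertBasis ℕ ℂ E) : Nonempty (Data E) := by
  obtain ⟨S, hS, hSi⟩ := exists_iso e (fun n => (1 : ℂ) • e (n + 1))
    (orth_twist e (fun _ => 1) (fun _ => by simp) _ (add_left_injective 1))
  have hd : ∀ n : ℕ, 0 ≤ 1 - (((n : ℝ) + 1)⁻¹) ^ 2 := by
    intro n
    have h1 : ((n : ℝ) + 1)⁻¹ ≤ 1 := inv_le_one_of_one_le₀ (by linarith [Nat.cast_nonneg (α := ℝ) n])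
    have h0 : 0 ≤ ((n : ℝ) + 1)⁻¹ := by positivity
    nlinarith
  let u : ℝ → ℕ → ℂ := fun σ n =>
    ⟨((n : ℝ) + 1)⁻¹, σ * Real.sqrt (1 - (((n : ℝ) + 1)⁻¹) ^ 2)⟩
  have hu : ∀ σ : ℝ, σ ^ 2 = 1 → ∀ n, ‖u σ n‖ = 1 := by
    intro σ hσ n
    have : ‖u σ n‖ ^ 2 = 1 := by
      rw [Complex.sq_norm, Complex.normSq_apply]
      simp only [u]
      have := Real.sq_sqrt (hd n)
      nlinarith
    have h0 := norm_nonneg (u σ n)
    nlinarith
  obtain ⟨W1, hW1, -⟩ := exists_iso e (fun n => u 1 n • e (n + 1))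
    (orth_twist e _ (hu 1 (by norm_num)) _ (add_left_injective 1))
  obtain ⟨W2, hW2, -⟩ := exists_iso e (fun n => u (-1) n • e (n + 1))
    (orth_twist e _ (hu (-1) (by norm_num)) _ (add_left_injective 1))
  refine ⟨⟨e, S, (2 : ℂ)⁻¹ • (W1 + W2), fun n => by simpa using hS n, fun n => ?_, hSi⟩⟩
  rw [smul_apply, add_apply, hW1, hW2, ← add_smul,
    smul_smul]
  congr 1
  have : ((n : ℂ) + 1)⁻¹ = ((((n : ℝ) + 1)⁻¹ : ℝ) : ℂ) := by push_cast; rfl
  rw [this]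
  apply Complex.ext
  · simp [u, -Complex.ofReal_inv]; ring
  · simp [u, -Complex.ofReal_inv]

namespace Data
variable (d : Data E)

omit [CompleteSpace E] in
theorem S0 (x : E) : ⟪d.e 0, d.S x⟫_ℂ = 0 := by
  have : (innerSL ℂ (d.e 0)).comp d.S = 0 := clm_ext d.e _ _ fun i => by
    simp [d.hS, inner_basis]
  exact congrArg (fun A : E →L[ℂ] ℂ => A x) this

omit [CompleteSpace E] in
theorem S1 (n : ℕ) (x : E) : ⟪d.e (n + 1), d.S x⟫_ℂ = ⟪d.e n, x⟫_ℂ := by
  rw [← d.hS, d.hSi]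

omit [CompleteSpace E] in
theorem V0 (x : E) : ⟪d.e 0, d.V x⟫_ℂ = 0 := by
  have : (innerSL ℂ (d.e 0)).comp d.V = 0 := clm_ext d.e _ _ fun i => by
    simp [d.hV, inner_basis]
  exact congrArg (fun A : E →L[ℂ] ℂ => A x) this

omit [CompleteSpace E] in
theorem V1 (n : ℕ) (x : E) : ⟪d.e (n + 1), d.V x⟫_ℂ = ((n : ℂ) + 1)⁻¹ * ⟪d.e n, x⟫_ℂ := by
  have : (innerSL ℂ (d.e (n + 1))).comp d.V = ((n : ℂ) + 1)⁻¹ • innerSL ℂ (d.e n) :=
    clm_ext d.e _ _ fun i => by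
      simp only [ContinuousLinearMap.comp_apply, d.hV, innerSL_apply_apply, inner_smul_right,
        inner_basis, smul_apply, smul_eq_mul, add_left_inj]
      split_ifs with h
      · rw [h]
      · simp
  exact congrArg (fun A : E →L[ℂ] ℂ => A x) this

omit [CompleteSpace E] in
theorem normS : ‖d.S‖ ≤ 1 := opNorm_of_inner _ d.hSi

omit [CompleteSpace E] in
theorem Spow (n k : ℕ) : (d.S ^ n) (d.e k) = d.e (k + n) := by
  induction n with
  | zero => simp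
  | succ n ih => rw [pow_succ', mul_apply_eq_comp, ih, d.hS, add_assoc]

omit [CompleteSpace E] in
theorem Spow_inner (n k : ℕ) (x : E) : ⟪d.e (k + n), (d.S ^ n) x⟫_ℂ = ⟪d.e k, x⟫_ℂ := by
  induction n with
  | zero => simp
  | succ n ih => rw [pow_succ', mul_apply_eq_comp, ← add_assoc, d.S1, ih]

omit [CompleteSpace E] in
theorem Spow_norm (n : ℕ) (x : E) : ‖(d.S ^ n) x‖ = ‖x‖ := by
  induction n with
  | zero => simp
  | succ n ih => rw [pow_succ', mul_apply_eq_comp, norm_of_inner _ d.hSi, ih]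

/-- A vector orthogonal to the first basis vector lies in the range of the shift. -/
theorem exists_pre (x : E) (h : ⟪d.e 0, x⟫_ℂ = 0) : ∃ y, d.S y = x := by
  refine ⟨ContinuousLinearMap.adjoint d.S x, vec_ext d.e _ _ fun i => ?_⟩
  cases i with
  | zero => rw [d.S0, h]
  | succ n => rw [d.S1, ContinuousLinearMap.adjoint_inner_right, d.hS]

theorem isUnit_sub (lam c : ℂ) (h : ‖c‖ < ‖lam‖) : IsUnit (lam • (1 : E →L[ℂ] E) - c • d.S) := by
  have hl : lam ≠ 0 := by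
    rintro rfl
    simp at h
    exact absurd h (not_lt.2 (norm_nonneg _))
  have h1 : ‖(lam⁻¹ * c) • d.S‖ < 1 := by
    rw [norm_smul, norm_mul, norm_inv]
    have := d.normS
    have hl' : 0 < ‖lam‖ := norm_pos_iff.2 hl
    have h2 : ‖lam‖⁻¹ * ‖c‖ < 1 := by
      rw [inv_mul_lt_iff₀ hl']; simpa using h
    have h3 : 0 ≤ ‖lam‖⁻¹ * ‖c‖ := by positivity
    nlinarith
  have h2 : IsUnit ((1 : E →L[ℂ] E) - (lam⁻¹ * c) • d.S) := (Units.oneSub _ h1).isUnit
  have h3 : lam • (1 : E →L[ℂ] E) - c • d.S = lam • ((1 : E →L[ℂ] E) - (lam⁻¹ * c) • d.S) := by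
    rw [smul_sub, smul_smul, ← mul_assoc, mul_inv_cancel₀ hl, one_mul]
  rw [h3]
  exact h2.smul (Units.mk0 lam hl)

end Data

end Pool.Agent.H.MP_908b95_an
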