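import Pool.Agent.H.MP_908b95_an.A

set_option autoImplicit false

open scoped InnerProductSpace
open Filter Topology

namespace Pool.Agent.H.MP_908b95_an

theorem log_bound {A : Type*} [CStarAlgebra A] (U : A) (hU : U ∈ unitary A) (c : ℂ)
    (hc : ‖c‖ < 1) :
    ∃ G : A, HasSum (fun m : ℕ => (c ^ m / m) • U ^ m) G ∧ ‖G - star G‖ ≤ 8 ∧
      (G - star G) * U = U * (G - star G) := by
  have hn : IsStarNormal U := ⟨by rw [Commute, SemiconjBy, hU.1, hU.2]⟩
  let φ : C(spectrum ℂ U, ℂ) →⋆ₐ[ℂ] A := cfcHom (R := ℂ) hn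
  let z : C(spectrum ℂ U, ℂ) := (ContinuousMap.id ℂ).restrict (spectrum ℂ U)
  have hz : φ z = U := cfcHom_id hn
  have hz1 : ∀ x, ‖z x‖ = 1 := fun x => spectrum.norm_eq_one_of_unitary hU x.2
  have hsum : Summable (fun m : ℕ => (c ^ m / m) • z ^ m) := by
    refine Summable.of_norm_bounded (g := fun m => ‖c‖ ^ m)
      (summable_geometric_of_lt_one (norm_nonneg _) hc) fun m => ?_
    refine (ContinuousMap.norm_le _ (by positivity)).2 fun x => ?_
    simp only [ContinuousMap.smul_apply, ContinuousMap.pow_apply, smul_eq_mul, norm_mul, norm_pow,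
      hz1, one_pow, mul_one, norm_div, Complex.norm_natCast]
    rcases Nat.eq_zero_or_pos m with rfl | hm
    · simp
    · exact div_le_self (by positivity) (by exact_mod_cast hm)
  obtain ⟨g, hg⟩ := hsum
  have hgx : ∀ x, g x = -Complex.log (1 - c * z x) := by
    intro x
    have h1 := hg.mapL (ContinuousMap.evalCLM ℂ x)
    have h2 := Complex.hasSum_taylorSeries_neg_log (z := c * z x)
      (by rw [norm_mul, hz1, mul_one]; exact hc)
    refine h1.unique (h2.congr_fun ?_) 
    intro m
    simp only [ContinuousMap.evalCLM_apply, ContinuousMap.smul_apply, ContinuousMap.pow_apply,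
      smul_eq_mul, mul_pow]
    ring
  refine ⟨φ g, ?_, ?_, ?_⟩
  · have := hg.map φ (cfcHom_continuous hn)
    refine this.congr_fun fun m => ?_
    simp only [Function.comp_apply, map_smul, map_pow, hz]
  · rw [← map_star, ← map_sub, norm_cfcHom U _ hn]
    refine (ContinuousMap.norm_le _ (by norm_num)).2 fun x => ?_
    simp only [ContinuousMap.sub_apply, ContinuousMap.star_apply, hgx, RCLike.star_def]
    rw [Complex.sub_conj, norm_mul, Complex.norm_I, mul_one, Complex.norm_real, Real.norm_eq_abs,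
      Complex.neg_im, Complex.log_im, abs_mul, abs_neg]
    have := Complex.abs_arg_le_pi (1 - c * z x)
    have := Real.pi_le_four
    norm_num
    linarith
  · have : φ ((g - star g) * z) = φ (z * (g - star g)) := by rw [mul_comm]
    rw [map_mul, map_mul, hz, map_sub, map_star] at this
    exact this

variable {E : Type*} [NormedAddCommGroup E] [InnerProductSpace ℂ E] [CompleteSpace E]
  {F : Type*} [NormedAddCommGroup F] [InnerProductSpace ℂ F] [CompleteSpace F]

theorem exists_bilateral (ε : HilbertBasis ℤ ℂ F) :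
    ∃ U : F →L[ℂ] F, U ∈ unitary (F →L[ℂ] F) ∧ ∀ n, U (ε n) = ε (n + 1) := by
  obtain ⟨U, hU, hUi⟩ := exists_iso ε (fun n => ε (n + 1))
    (ε.orthonormal.comp _ (add_left_injective 1))
  obtain ⟨W, hW, -⟩ := exists_iso ε (fun n => ε (n - 1))
    (ε.orthonormal.comp _ (sub_left_injective))
  have h1 : star U * U = 1 := by
    ext x
    refine ext_inner_left ℂ fun y => ?_
    rw [mul_apply_eq_comp, ContinuousLinearMap.star_eq_adjoint,
      ContinuousLinearMap.adjoint_inner_right, hUi]
    simp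
  have h2 : U * W = 1 := clm_ext ε _ _ fun i => by
    rw [mul_apply_eq_comp, hW, hU]; simp
  have h3 : star U = W := by
    calc star U = star U * (U * W) := by rw [h2, mul_one]
      _ = W := by rw [← mul_assoc, h1, one_mul]
  exact ⟨U, ⟨h1, by rw [h3, h2]⟩, hU⟩

theorem Data.exists_K (d : Data E) (ε : HilbertBasis ℤ ℂ F) (b : ℂ) (hb : ‖b‖ < 1) :
    ∃ K : E →L[ℂ] E, ‖K‖ ≤ 8 ∧
      ∀ n : ℕ, (K * d.S - d.S * K) (d.e n) = (-(b ^ (n + 1) / ((n : ℂ) + 1))) • d.e 0 := by
  obtain ⟨U, hUu, hU⟩ := exists_bilateral ε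
  obtain ⟨J, hJ, hJi⟩ := exists_iso d.e (fun n : ℕ => ε n)
    (ε.orthonormal.comp _ Nat.cast_injective)
  obtain ⟨G, hG, hGn, hGc⟩ := log_bound U hUu (starRingEnd ℂ b) (by simpa using hb)
  have hUpow : ∀ (m : ℕ) (n : ℤ), (U ^ m) (ε n) = ε (n + m) := by
    intro m n
    induction m with
    | zero => simp
    | succ m ih => rw [pow_succ', mul_apply_eq_comp, ih, hU]; push_cast; rw [add_assoc]
  have hGij : ∀ i j : ℤ, HasSum (fun m : ℕ => ((starRingEnd ℂ b) ^ m / m) *
      (if i = j + m then 1 else 0)) ⟪ε i, G (ε j)⟫_ℂ := by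
    intro i j
    have := hG.mapL ((innerSL ℂ (ε i)).comp (ContinuousLinearMap.apply ℂ F (ε j)))
    refine this.congr_fun fun m => ?_
    simp [hUpow, inner_basis]
  have hUJ : ∀ x, U (J x) = J (d.S x) := by
    have : U.comp J = J.comp d.S := clm_ext d.e _ _ fun i => by
      simp [hJ, hU, d.hS]
    exact fun x => congrArg (fun A : E →L[ℂ] F => A x) this
  have hcomm : ∀ y, ContinuousLinearMap.adjoint J (U y) - d.S (ContinuousLinearMap.adjoint J y)
      = ⟪ε (-1), y⟫_ℂ • d.e 0 := by
    intro y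
    refine vec_ext d.e _ _ fun i => ?_
    have hUi : ∀ x y, ⟪U x, U y⟫_ℂ = ⟪x, y⟫_ℂ := by
      intro x y
      rw [← ContinuousLinearMap.adjoint_inner_right, ← ContinuousLinearMap.star_eq_adjoint,
        ← mul_apply_eq_comp, hUu.1]
      simp
    rw [inner_sub_right, ContinuousLinearMap.adjoint_inner_right, inner_smul_right, inner_basis]
    cases i with
    | zero =>
      rw [d.S0, hJ]
      have : ε ((0 : ℕ) : ℤ) = U (ε (-1)) := by rw [hU]; simp
      rw [this, hUi]; simp
    | succ n =>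
      rw [d.S1, ContinuousLinearMap.adjoint_inner_right, ← d.hS, ← hUJ, hUi]; simp
  refine ⟨(ContinuousLinearMap.adjoint J).comp ((G - star G).comp J), ?_, fun n => ?_⟩
  · have hJ1 : ‖J‖ ≤ 1 := opNorm_of_inner J hJi
    have hJ2 : ‖ContinuousLinearMap.adjoint J‖ ≤ 1 := by
      rw [LinearIsometryEquiv.norm_map]; exact hJ1
    calc _ ≤ ‖ContinuousLinearMap.adjoint J‖ * ‖(G - star G).comp J‖ :=
          ContinuousLinearMap.opNorm_comp_le _ _
      _ ≤ 1 * (‖G - star G‖ * ‖J‖) := by
          gcongr; exact ContinuousLinearMap.opNorm_comp_le _ _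
      _ ≤ 1 * (8 * 1) := by gcongr
      _ = 8 := by norm_num
  · have h1 : (G - star G) (J (d.S (d.e n))) = U ((G - star G) (J (d.e n))) := by
      rw [← hUJ, ← mul_apply_eq_comp, hGc, mul_apply_eq_comp]
    simp only [sub_apply, mul_apply_eq_comp, ContinuousLinearMap.comp_apply] at h1 ⊢
    rw [h1, hcomm, hJ, inner_sub_right, ContinuousLinearMap.star_eq_adjoint,
      ContinuousLinearMap.adjoint_inner_right, ← inner_conj_symm]
    have e1 : ⟪ε (-1), G (ε n)⟫_ℂ = 0 := by
      refine (hGij (-1) n).unique ?_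
      have : (fun m : ℕ => ((starRingEnd ℂ b) ^ m / m) *
        (if (-1 : ℤ) = n + m then (1 : ℂ) else 0)) = fun _ => 0 := by
        funext m
        rw [if_neg (by omega), mul_zero]
      rw [this]; exact hasSum_zero
    have e2 : ⟪ε n, G (ε (-1))⟫_ℂ = (starRingEnd ℂ b) ^ (n + 1) / ((n : ℂ) + 1) := by
      refine (hGij n (-1)).unique ?_
      have := hasSum_single (f := fun m : ℕ => ((starRingEnd ℂ b) ^ m / m) *
        (if (n : ℤ) = -1 + m then (1 : ℂ) else 0)) (n + 1) (fun m hm => by
          rw [if_neg (by omega), mul_zero])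
      rw [if_pos (by push_cast; ring), mul_one] at this
      simpa using this
    rw [← inner_conj_symm (G (ε (-1))), e2, inner_conj_symm, e1]
    simp

end Pool.Agent.H.MP_908b95_an
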