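import Pool.Agent.H.MP_908b95_an.C

set_option autoImplicit false

open scoped InnerProductSpace
open Filter Topology

namespace Pool.Agent.H.MP_908b95_an

/-- The Moebius image of an element of an algebra. -/
noncomputable def mob {A : Type*} [Ring A] [Algebra ℂ A] (T : A) (lam a : ℂ) : A :=
  lam • ((T - a • (1 : A)) * Ring.inverse ((1 : A) - (starRingEnd ℂ a) • T))

section alg
variable {A : Type*} [Ring A] [Algebra ℂ A]

theorem mob_key (T : A) (lam a : ℂ) (h : IsUnit ((1 : A) - (starRingEnd ℂ a) • T)) :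
    ((1 : A) - (starRingEnd ℂ a) • T) * mob T lam a = lam • (T - a • (1 : A)) := by
  have hc : ((1 : A) - (starRingEnd ℂ a) • T) * (T - a • 1) =
      (T - a • 1) * ((1 : A) - (starRingEnd ℂ a) • T) := by
    simp only [mul_sub, sub_mul, one_mul, mul_one, smul_mul_assoc, mul_smul_comm, smul_sub,
      smul_smul, mul_comm a]
    abel
  rw [mob, mul_smul_comm, ← mul_assoc, hc, mul_assoc, Ring.mul_inverse_cancel _ h, mul_one]

theorem mob_of (T : A) (lam a : ℂ) (h : IsUnit ((1 : A) - (starRingEnd ℂ a) • T)) (Γ : Aˣ)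
    (hΓ : lam • (T - a • (1 : A)) * Γ = ((1 : A) - (starRingEnd ℂ a) • T) * Γ * T) :
    mob T lam a = Γ * T * ↑Γ⁻¹ := by
  refine h.mul_left_cancel ?_
  rw [mob_key T lam a h, ← mul_assoc, ← mul_assoc, ← hΓ]
  simp

theorem mob_conj (T : A) (lam a : ℂ) (h : IsUnit ((1 : A) - (starRingEnd ℂ a) • T)) (X : Aˣ) :
    mob (X * T * ↑X⁻¹) lam a = X * mob T lam a * ↑X⁻¹ := by
  have e1 : (1 : A) - (starRingEnd ℂ a) • (X * T * ↑X⁻¹ : A) =
      X * ((1 : A) - (starRingEnd ℂ a) • T) * ↑X⁻¹ := by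
    simp [mul_sub, sub_mul]
  have h' : IsUnit ((1 : A) - (starRingEnd ℂ a) • (X * T * ↑X⁻¹ : A)) := by
    rw [e1]; exact (X.isUnit.mul h).mul X⁻¹.isUnit
  refine h'.mul_left_cancel ?_
  rw [mob_key _ lam a h', e1]
  have : (X : A) * (1 - (starRingEnd ℂ a) • T) * ↑X⁻¹ * (X * mob T lam a * ↑X⁻¹) =
      X * ((1 - (starRingEnd ℂ a) • T) * mob T lam a) * ↑X⁻¹ := by
    simp [mul_assoc]
  rw [this, mob_key _ lam a h]
  simp [mul_sub, sub_mul, smul_sub]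

end alg

/-- A splitting of a space as a sum of two copies of another one. -/
structure Split (E H : Type*) [NormedAddCommGroup E] [NormedSpace ℂ E] [NormedAddCommGroup H]
    [NormedSpace ℂ H] where
  i1 : E →L[ℂ] H
  i2 : E →L[ℂ] H
  p1 : H →L[ℂ] E
  p2 : H →L[ℂ] E
  h11 : ∀ x, p1 (i1 x) = x
  h12 : ∀ x, p1 (i2 x) = 0
  h21 : ∀ x, p2 (i1 x) = 0
  h22 : ∀ x, p2 (i2 x) = x
  hid : ∀ x, i1 (p1 x) + i2 (p2 x) = x

variable {E : Type*} [NormedAddCommGroup E] [InnerProductSpace ℂ E] [CompleteSpace E]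
  {H : Type*} [NormedAddCommGroup H] [InnerProductSpace ℂ H] [CompleteSpace H]

namespace Split
variable (s : Split E H)

omit [CompleteSpace E] [CompleteSpace H]

theorem ext' (x y : H) (h1 : s.p1 x = s.p1 y) (h2 : s.p2 x = s.p2 y) : x = y := by
  rw [← s.hid x, ← s.hid y, h1, h2]

/-- Upper triangular block operator. -/
noncomputable def blk (A B D : E →L[ℂ] E) : H →L[ℂ] H :=
  s.i1.comp (A.comp s.p1) + s.i1.comp (B.comp s.p2) + s.i2.comp (D.comp s.p2)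

theorem p1_blk (A B D : E →L[ℂ] E) (x : H) :
    s.p1 (s.blk A B D x) = A (s.p1 x) + B (s.p2 x) := by
  simp [blk, s.h11, s.h12]

theorem p2_blk (A B D : E →L[ℂ] E) (x : H) : s.p2 (s.blk A B D x) = D (s.p2 x) := by
  simp [blk, s.h21, s.h22]

theorem blk_mul (A B D A' B' D' : E →L[ℂ] E) :
    s.blk A B D * s.blk A' B' D' = s.blk (A * A') (A * B' + B * D') (D * D') := by
  ext x
  refine s.ext' _ _ ?_ ?_
  · simp only [mul_apply_eq_comp, p1_blk, p2_blk, map_add, add_apply]; abel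
  · simp only [mul_apply_eq_comp, p2_blk]

theorem blk_one : s.blk 1 0 1 = 1 := by
  ext x
  refine s.ext' _ _ ?_ ?_
  · simp [p1_blk]
  · simp [p2_blk]

theorem blk_lin (c c' : ℂ) (A B D : E →L[ℂ] E) :
    c • (1 : H →L[ℂ] H) - c' • s.blk A B D = s.blk (c • 1 - c' • A) (-(c' • B)) (c • 1 - c' • D) := by
  ext x
  refine s.ext' _ _ ?_ ?_
  · simp only [p1_blk, map_sub, sub_apply, smul_apply, map_smul, neg_apply, smul_add]
    simp; abel
  · simp [p2_blk]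

theorem blk_norm (A B D : E →L[ℂ] E) :
    ‖s.blk A B D‖ ≤ ‖s.i1‖ * (‖A‖ * ‖s.p1‖) + ‖s.i1‖ * (‖B‖ * ‖s.p2‖) + ‖s.i2‖ * (‖D‖ * ‖s.p2‖) := by
  have key : ∀ (i : E →L[ℂ] H) (A : E →L[ℂ] E) (p : H →L[ℂ] E),
      ‖i.comp (A.comp p)‖ ≤ ‖i‖ * (‖A‖ * ‖p‖) := fun i A p =>
    (ContinuousLinearMap.opNorm_comp_le _ _).trans
      (mul_le_mul_of_nonneg_left (ContinuousLinearMap.opNorm_comp_le _ _) (norm_nonneg _))
  exact norm_add₃_le.trans (add_le_add (add_le_add (key _ _ _) (key _ _ _)) (key _ _ _))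

/-- Invertible upper triangular block operator. -/
noncomputable def blkU (u : (E →L[ℂ] E)ˣ) (B : E →L[ℂ] E) : (H →L[ℂ] H)ˣ where
  val := s.blk u B u
  inv := s.blk ↑u⁻¹ (-(↑u⁻¹ * B * ↑u⁻¹)) ↑u⁻¹
  val_inv := by rw [blk_mul, ← s.blk_one]; congr 1 <;> simp [mul_assoc]
  inv_val := by rw [blk_mul, ← s.blk_one]; congr 1 <;> simp [mul_assoc]

theorem isUnit_blk (A B : E →L[ℂ] E) (h : IsUnit A) : IsUnit (s.blk A B A) := by
  obtain ⟨u, rfl⟩ := h
  exact (s.blkU u B).isUnit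

end Split

/-- The counterexample operator. -/
noncomputable def TT (d : Data E) (s : Split E H) : H →L[ℂ] H := s.blk d.S d.V d.S

variable (d : Data E) (s : Split E H)

omit [CompleteSpace H] in
theorem TT_unit (lam c : ℂ) (h : ‖c‖ < ‖lam‖) : IsUnit (lam • (1 : H →L[ℂ] H) - c • TT d s) := by
  rw [TT, s.blk_lin]
  exact s.isUnit_blk _ _ (d.isUnit_sub lam c h)

omit [CompleteSpace H] in
theorem TT_unit' (a : ℂ) (h : ‖a‖ < 1) :
    IsUnit ((1 : H →L[ℂ] H) - starRingEnd ℂ a • TT d s) := by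
  simpa using TT_unit d s 1 (starRingEnd ℂ a) (by simpa using h)

omit [CompleteSpace H] in
theorem TT_spec : spectrum ℂ (TT d s) ⊆ Metric.closedBall (0 : ℂ) 1 := by
  intro μ hμ
  by_contra h
  rw [mem_closedBall_zero_iff, not_le] at h
  apply hμ
  rw [spectrum.mem_resolventSet_iff, Algebra.algebraMap_eq_smul_one]
  simpa using TT_unit d s μ 1 (by simpa using h)

omit [CompleteSpace H] in
theorem TT_pos {F : Type*} [NormedAddCommGroup F] [InnerProductSpace ℂ F] [CompleteSpace F]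
    (ε : HilbertBasis ℤ ℂ F) :
    ∃ C : ℝ, ∀ lam a : ℂ, ‖lam‖ = 1 → ‖a‖ < 1 → ∃ Γ : (H →L[ℂ] H)ˣ,
      ‖(Γ : H →L[ℂ] H)‖ ≤ C ∧ ‖((Γ⁻¹ : (H →L[ℂ] H)ˣ) : H →L[ℂ] H)‖ ≤ C ∧
      mob (TT d s) lam a = Γ * TT d s * ↑Γ⁻¹ ∧
      (∀ x, s.p2 x = 0 → s.p2 ((Γ : H →L[ℂ] H) x) = 0) ∧
      (∀ x, s.p2 x = 0 → s.p2 (((Γ⁻¹ : (H →L[ℂ] H)ˣ) : H →L[ℂ] H) x) = 0) := by
  refine ⟨‖s.i1‖ * (1 * ‖s.p1‖) + ‖s.i1‖ * (8 * ‖s.p2‖) + ‖s.i2‖ * (1 * ‖s.p2‖),
    fun lam a hl ha => ?_⟩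
  obtain ⟨ρ, hρ1, hρ2, hi, hii⟩ := d.exists_rho lam a hl ha
  obtain ⟨K, hK, hKS⟩ := d.exists_K ε (-(lam * a)) (by rw [norm_neg, norm_mul, hl, one_mul]; exact ha)
  refine ⟨s.blkU ρ (ρ * K), ?_, ?_, ?_, ?_, ?_⟩
  · refine (s.blk_norm _ _ _).trans ?_
    have : ‖(ρ : E →L[ℂ] E) * K‖ ≤ 8 := by
      calc _ ≤ ‖(ρ : E →L[ℂ] E)‖ * ‖K‖ := norm_mul_le _ _
        _ ≤ 1 * 8 := by gcongr
        _ = 8 := by norm_num
    gcongr
  · refine (s.blk_norm _ _ _).trans ?_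
    have : ‖-((↑ρ⁻¹ : E →L[ℂ] E) * (ρ * K) * ↑ρ⁻¹)‖ ≤ 8 := by
      rw [norm_neg, ← mul_assoc, Units.inv_mul, one_mul]
      calc _ ≤ ‖K‖ * ‖(↑ρ⁻¹ : E →L[ℂ] E)‖ := norm_mul_le _ _
        _ ≤ 8 * 1 := by gcongr
        _ = 8 := by norm_num
    gcongr
  · refine mob_of _ _ _ (TT_unit' d s a ha) _ ?_
    have hii' : d.V * ρ * (lam • 1 + starRingEnd ℂ a • d.S) =
        (1 - starRingEnd ℂ a • d.S) * ρ * (d.V + (K * d.S - d.S * K)) :=
      clm_ext d.e _ _ fun n => by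
        have := hii n
        rw [mul_apply_eq_comp, mul_apply_eq_comp, mul_apply_eq_comp, mul_apply_eq_comp, add_apply,
          add_apply, hKS, neg_smul, ← sub_eq_add_neg, ← this]
        simp
    have e1 : lam • (TT d s - a • (1 : H →L[ℂ] H)) =
        (-(lam * a)) • (1 : H →L[ℂ] H) - (-lam) • TT d s := by
      simp only [smul_sub, smul_smul, neg_smul]; abel
    have e2 : (1 : H →L[ℂ] H) - starRingEnd ℂ a • TT d s =
        (1 : ℂ) • (1 : H →L[ℂ] H) - starRingEnd ℂ a • TT d s := by rw [one_smul]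
    have e3 : (-(lam * a)) • (1 : E →L[ℂ] E) - (-lam) • d.S = lam • (d.S - a • 1) := by
      simp only [smul_sub, smul_smul, neg_smul]; abel
    rw [e1, e2, TT, s.blk_lin, s.blk_lin]
    change _ * s.blk _ _ _ = _ * s.blk _ _ _ * _
    rw [s.blk_mul, s.blk_mul, s.blk_mul, e3, one_smul, hi]
    congr 1
    rw [← mul_assoc, hi]
    have h3 : d.V * ↑ρ * (lam • 1 + starRingEnd ℂ a • d.S) =
        lam • (d.V * ρ) + starRingEnd ℂ a • (d.V * ρ * d.S) := by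
      simp [mul_add]
    rw [h3] at hii'
    simp only [neg_smul, neg_neg, smul_mul_assoc, neg_mul, add_mul]
    rw [eq_sub_of_add_eq hii']
    simp only [mul_add, mul_sub, mul_assoc]
    abel
  · intro x hx
    change s.p2 (s.blk _ _ _ x) = 0
    rw [s.p2_blk, hx, map_zero]
  · intro x hx
    change s.p2 (s.blk _ _ _ x) = 0
    rw [s.p2_blk, hx, map_zero]

end Pool.Agent.H.MP_908b95_an
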