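import Pool.Agent.H.MP_908b95_an.E

set_option autoImplicit false

open scoped InnerProductSpace
open Filter Topology

namespace Pool.Agent.H.MP_908b95_an

variable {E : Type*} [NormedAddCommGroup E] [InnerProductSpace ℂ E] [CompleteSpace E]
  {H : Type*} [NormedAddCommGroup H] [InnerProductSpace ℂ H] [CompleteSpace H]

variable (d : Data E) (s : Split E H)

omit [CompleteSpace E] in
theorem exists_proj (X : (H →L[ℂ] H)ˣ) : ∃ P : H →L[ℂ] H, (∀ x, s.p2 (P x) = 0) ∧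
    ∀ x m, s.p2 m = 0 → ⟪(X : H →L[ℂ] H) m, (X : H →L[ℂ] H) (x - P x)⟫_ℂ = 0 := by
  let K : Submodule ℂ H := LinearMap.ker ((s.p2.comp (↑X⁻¹ : H →L[ℂ] H) : H →L[ℂ] E) : H →ₗ[ℂ] E)
  have hK : IsClosed (K : Set H) := ContinuousLinearMap.isClosed_ker _
  have : CompleteSpace K := hK.completeSpace_coe
  refine ⟨(↑X⁻¹ : H →L[ℂ] H) * K.starProjection * X, fun x => ?_, fun x m hm => ?_⟩
  · exact K.starProjection_apply_mem ((X : H →L[ℂ] H) x)
  · have h1 : (X : H →L[ℂ] H) m ∈ K := by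
      change s.p2 ((↑X⁻¹ : H →L[ℂ] H) ((X : H →L[ℂ] H) m)) = 0
      rw [← mul_apply_eq_comp, Units.inv_mul]; simpa using hm
    have h2 : (X : H →L[ℂ] H) (x - ((↑X⁻¹ : H →L[ℂ] H) * K.starProjection * X) x) =
        (X : H →L[ℂ] H) x - K.starProjection ((X : H →L[ℂ] H) x) := by
      rw [map_sub, ← mul_apply_eq_comp _ (_ * _ * _), ← mul_assoc, ← mul_assoc, Units.mul_inv,
        one_mul, mul_apply_eq_comp]
    rw [h2]
    exact K.inner_right_of_mem_orthogonal h1 (K.sub_starProjection_mem_orthogonal _)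

theorem exp_ne (k : ℕ) : Complex.exp (((1 : ℝ) : ℂ) * Complex.I) ^ (k + 1) ≠ 1 := by
  intro h
  rw [← Complex.exp_nat_mul, Complex.exp_eq_one_iff] at h
  obtain ⟨n, hn⟩ := h
  have h1 : ((k : ℝ) + 1) = n * (2 * Real.pi) := by
    have := congrArg Complex.im hn
    simpa using this
  have hn0 : (n : ℝ) ≠ 0 := by
    intro h0
    rw [h0, zero_mul] at h1
    have : (0 : ℝ) ≤ k := Nat.cast_nonneg k
    linarith
  apply irrational_pi
  refine ⟨((k : ℚ) + 1) / (2 * n), ?_⟩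
  push_cast
  field_simp
  linarith

theorem not_homog {F : Type*} [NormedAddCommGroup F] [InnerProductSpace ℂ F] [CompleteSpace F]
    (ε : HilbertBasis ℤ ℂ F) (X : (H →L[ℂ] H)ˣ)
    (hX : ∀ (θ : ℝ) (a : ℂ), ‖a‖ < 1 → ∃ U ∈ unitary (H →L[ℂ] H),
      mob ((X : H →L[ℂ] H) * TT d s * ↑X⁻¹) (Complex.exp ((θ : ℂ) * Complex.I)) a =
        U * ((X : H →L[ℂ] H) * TT d s * ↑X⁻¹) * star U) : False := by
  obtain ⟨C0, hC0⟩ := TT_pos d s ε
  set T := TT d s with hT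
  set B : H → H → ℂ := fun x y => ⟪(X : H →L[ℂ] H) x, (X : H →L[ℂ] H) y⟫_ℂ with hB
  have hXX : ∀ x, (↑X⁻¹ : H →L[ℂ] H) ((X : H →L[ℂ] H) x) = x := fun x => by
    rw [← mul_apply_eq_comp, Units.inv_mul]; simp
  have hXX' : ∀ x, (X : H →L[ℂ] H) ((↑X⁻¹ : H →L[ℂ] H) x) = x := fun x => by
    rw [← mul_apply_eq_comp, Units.mul_inv]; simp
  have hB0 : ∀ z, B z z = 0 → z = 0 := fun z hz => by
    rw [← hXX z, inner_self_eq_zero.1 hz, map_zero]
  have step1 : ∀ (θ : ℝ) (a : ℂ), ‖a‖ < 1 → ∃ Γ : (H →L[ℂ] H)ˣ,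
      mob T (Complex.exp ((θ : ℂ) * Complex.I)) a = Γ * T * ↑Γ⁻¹ ∧
      (∀ x y, B ((Γ : H →L[ℂ] H) x) ((Γ : H →L[ℂ] H) y) = B x y) ∧
      (∀ x, s.p2 x = 0 → s.p2 ((Γ : H →L[ℂ] H) x) = 0) ∧
      (∀ x, s.p2 x = 0 → s.p2 (((Γ⁻¹ : (H →L[ℂ] H)ˣ) : H →L[ℂ] H) x) = 0) := by
    intro θ a ha
    obtain ⟨U, hU, hUe⟩ := hX θ a ha
    obtain ⟨Γ0, -, -, h0, h1, h2⟩ := hC0 _ a (Complex.norm_exp_ofReal_mul_I θ) ha
    let Uu : (H →L[ℂ] H)ˣ := ⟨U, star U, hU.2, hU.1⟩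
    have hm : mob T (Complex.exp ((θ : ℂ) * Complex.I)) a =
        ↑(X⁻¹ * Uu * X) * T * ↑(X⁻¹ * Uu * X)⁻¹ := by
      rw [mob_conj _ _ _ (TT_unit' d s a ha)] at hUe
      have := congrArg (fun Z => (↑X⁻¹ : H →L[ℂ] H) * Z * X) hUe
      simp only [mul_assoc, Units.inv_mul_cancel_left, Units.inv_mul, mul_one] at this
      rw [this]
      simp only [mul_inv_rev, inv_inv, Units.val_mul, mul_assoc]
      rfl
    refine ⟨X⁻¹ * Uu * X, hm, fun x y => ?_, inter_inv d s _ Γ0 (hm.symm.trans h0) h1 h2⟩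
    simp only [hB, Units.val_mul, mul_apply_eq_comp, hXX']
    change ⟪U _, U _⟫_ℂ = _
    rw [← ContinuousLinearMap.adjoint_inner_right, ← ContinuousLinearMap.star_eq_adjoint,
      ← mul_apply_eq_comp, hU.1]
    simp
  obtain ⟨P, hP1, hP2⟩ := exists_proj s X
  -- the complement of the first summand
  set W : H → Prop := fun y => ∀ m, s.p2 m = 0 → B m y = 0 with hW
  have hWsub : ∀ x y, W x → W y → W (x - y) := fun x y hx hy m hm => by
    have h1 := hx m hm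
    have h2 := hy m hm
    simp only [hB] at h1 h2 ⊢
    rw [map_sub, inner_sub_right, h1, h2, sub_zero]
  have hWsmul : ∀ (c : ℂ) x, W x → W (c • x) := fun c x hx m hm => by
    have h1 := hx m hm
    simp only [hB] at h1 ⊢
    rw [map_smul, inner_smul_right, h1, mul_zero]
  have hWM : ∀ z, W z → s.p2 z = 0 → z = 0 := fun z hz hz' => hB0 z (hz z hz')
  have hPW : ∀ x, W (x - P x) := fun x m hm => hP2 x m hm
  have hPu : ∀ x m, s.p2 m = 0 → W (x - m) → P x = m := by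
    intro x m hm hx
    have h1 := hWsub _ _ hx (hPW x)
    rw [sub_sub_sub_cancel_left] at h1
    exact sub_eq_zero.1 (hWM _ h1 (by rw [map_sub, hP1, hm, sub_zero]))
  have hΓW : ∀ Γ : (H →L[ℂ] H)ˣ, (∀ x y, B ((Γ : H →L[ℂ] H) x) ((Γ : H →L[ℂ] H) y) = B x y) →
      (∀ x, s.p2 x = 0 → s.p2 (((Γ⁻¹ : (H →L[ℂ] H)ˣ) : H →L[ℂ] H) x) = 0) →
      ∀ y, W y → W ((Γ : H →L[ℂ] H) y) := by
    intro Γ h1 h2 y hy m hm
    have : m = (Γ : H →L[ℂ] H) ((↑Γ⁻¹ : H →L[ℂ] H) m) := by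
      rw [← mul_apply_eq_comp, Units.mul_inv]; simp
    rw [this, h1]
    exact hy _ (h2 m hm)
  -- the property at the origin
  have P0 : ∀ x, ⟪d.e 0, s.p1 (P (T (x - P x)))⟫_ℂ = 0 := by
    obtain ⟨Γ, hm, hΓB, hΓ1, hΓ2⟩ := step1 1 0 (by simp)
    set lam := Complex.exp (((1 : ℝ) : ℂ) * Complex.I) with hlam
    have hl : ‖lam‖ = 1 := Complex.norm_exp_ofReal_mul_I 1
    have hll : starRingEnd ℂ lam * lam = 1 := by rw [Complex.conj_mul', hl]; simp
    have hΓT : (Γ : H →L[ℂ] H) * T = lam • (T * Γ) := by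
      have : mob T lam 0 = lam • T := by simp [mob]
      rw [this] at hm
      rw [← smul_mul_assoc, hm]; simp
    have hΓTx : ∀ x, (Γ : H →L[ℂ] H) (T x) = lam • T ((Γ : H →L[ℂ] H) x) := fun x => by
      rw [← mul_apply_eq_comp, hΓT]; simp
    have hΓP : ∀ x, P ((Γ : H →L[ℂ] H) x) = (Γ : H →L[ℂ] H) (P x) := fun x =>
      hPu _ _ (hΓ1 _ (hP1 x)) (by rw [← map_sub]; exact hΓW Γ hΓB hΓ2 _ (hPW x))
    set α := ⟪d.e 0, s.p1 ((Γ : H →L[ℂ] H) (s.i1 (d.e 0)))⟫_ℂ with hα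
    have hαβ := diag_eq d s Γ lam hl hΓT hΓ1
    have hA : ∀ m, s.p2 m = 0 →
        ⟪d.e 0, s.p1 ((Γ : H →L[ℂ] H) m)⟫_ℂ = α * ⟪d.e 0, s.p1 m⟫_ℂ := by
      intro m hm'
      have := coeff0 d (s.p1.comp ((Γ : H →L[ℂ] H).comp s.i1)) (fun x => by
        simp only [ContinuousLinearMap.comp_apply]
        rw [← T_i1, hΓTx, map_smul, p1_T, inner_smul_right, inner_add_right, d.S0, d.V0]; simp)
        (s.p1 m)
      simp only [ContinuousLinearMap.comp_apply] at this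
      rwa [← eq_i1 s m hm'] at this
    let L : H →L[ℂ] ℂ := (innerSL ℂ (d.e 0)).comp (s.p1.comp (P * T * (1 - P)))
    have hL : ∀ x, L x = ⟪d.e 0, s.p1 (P (T (x - P x)))⟫_ℂ := fun x => rfl
    obtain ⟨v, hv⟩ : ∃ v, ∀ x, B v x = L x := by
      refine ⟨(↑X⁻¹ : H →L[ℂ] H) ((InnerProductSpace.toDual ℂ H).symm (L.comp (↑X⁻¹ : H →L[ℂ] H))), fun x => ?_⟩
      simp only [hB, hXX', InnerProductSpace.toDual_symm_apply, ContinuousLinearMap.comp_apply,
        hXX]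
    have hvW : W v := by
      intro m hm'
      have h1 : P m = m := hPu m m hm' (by
        rw [sub_self]; intro m' _; simp [hB])
      have h2 := hv m
      rw [hL, h1, sub_self] at h2
      simp only [map_zero, inner_zero_right, hB] at h2
      simp only [hB]
      rw [← inner_conj_symm, h2, map_zero]
    have hLΓ : ∀ x, lam * L ((Γ : H →L[ℂ] H) x) = α * L x := by
      intro x
      rw [hL, hL, hΓP, ← map_sub, ← hA _ (hP1 _), ← hΓP, hΓTx, map_smul, map_smul,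
        inner_smul_right]
    have hvΓ : starRingEnd ℂ lam • v = starRingEnd ℂ α • (Γ : H →L[ℂ] H) v := by
      rw [← sub_eq_zero]
      apply hB0
      generalize hz : starRingEnd ℂ lam • v - starRingEnd ℂ α • (Γ : H →L[ℂ] H) v = z
      have h1 := hLΓ ((↑Γ⁻¹ : H →L[ℂ] H) z)
      rw [← hv, ← hv, ← hΓB v ((↑Γ⁻¹ : H →L[ℂ] H) z)] at h1
      have h2 : (Γ : H →L[ℂ] H) ((↑Γ⁻¹ : H →L[ℂ] H) z) = z := by
        rw [← mul_apply_eq_comp, Units.mul_inv]; simp
      rw [h2] at h1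
      have h3 : B z z = B (starRingEnd ℂ lam • v - starRingEnd ℂ α • (Γ : H →L[ℂ] H) v) z := by
        rw [hz]
      rw [h3]
      simp only [hB, map_sub, map_smul, inner_sub_left, inner_smul_left, Complex.conj_conj] at h1 ⊢
      rw [h1, sub_self]
    have hp2 : ∀ x, s.p2 ((Γ : H →L[ℂ] H) x) = s.p2 ((Γ : H →L[ℂ] H) (s.i2 (s.p2 x))) := by
      intro x
      conv_lhs => rw [← s.hid x]
      rw [map_add, map_add, hΓ1 _ (s.h21 _), zero_add]
    have hg : s.p2 v = 0 := by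
      refine no_eigen d (s.p2.comp ((Γ : H →L[ℂ] H).comp s.i2)) lam (starRingEnd ℂ lam)
        (starRingEnd ℂ α) (fun x => ?_) _ ?_ fun k hk => ?_
      · simp only [ContinuousLinearMap.comp_apply]
        have := hp2 (T (s.i2 x))
        rw [p2_T, s.h22] at this
        rw [← this, hΓTx, map_smul, p2_T]
      · simp only [ContinuousLinearMap.comp_apply]
        rw [← hp2, ← map_smul, hvΓ, map_smul]
      · simp only [ContinuousLinearMap.comp_apply] at hk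
        rw [← hαβ] at hk
        have h1 : (starRingEnd ℂ α * α) * lam ^ (k + 1) = 1 := by
          rw [← hll, hk]; ring
        have h2 := congrArg norm h1
        rw [Complex.conj_mul', norm_mul, norm_pow lam, hl, one_pow, mul_one, norm_one, norm_pow,
          Complex.norm_real, norm_norm] at h2
        rw [Complex.conj_mul', ← Complex.ofReal_pow, h2] at h1
        rw [Complex.ofReal_one, one_mul] at h1
        exact exp_ne k h1
    intro x
    rw [← hL, ← hv, hWM v hvW hg]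
    simp [hB]
  have P0' : ∀ x, ∃ m, s.p2 m = 0 ∧ W (T (x - m)) := by
    intro x
    obtain ⟨y, hy⟩ := d.exists_pre _ (P0 x)
    refine ⟨P x + s.i1 y, by rw [map_add, hP1, s.h21, add_zero], ?_⟩
    have : T (x - (P x + s.i1 y)) = T (x - P x) - P (T (x - P x)) := by
      rw [← sub_sub, map_sub, T_i1, hy, ← eq_i1 s _ (hP1 _)]
    rw [this]; exact hPW _
  have Pw : ∀ a : ℂ, ‖a‖ < 1 → ∀ x, ∃ m, s.p2 m = 0 ∧ W (T (x - m) - a • (x - m)) := by
    intro a ha x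
    obtain ⟨Γ, hm, hΓB, hΓ1, hΓ2⟩ := step1 0 a ha
    obtain ⟨u, hu⟩ := TT_unit' d s a ha
    have hΓT : (Γ : H →L[ℂ] H) * T = (T - a • 1) * ↑u⁻¹ * Γ := by
      have : mob T (Complex.exp (((0 : ℝ) : ℂ) * Complex.I)) a = (T - a • 1) * ↑u⁻¹ := by
        rw [mob, ← hu, Ring.inverse_unit]; simp
      rw [← this, hm]; simp
    obtain ⟨m, hm1, hm2⟩ := P0' ((↑Γ⁻¹ : H →L[ℂ] H) ((u : H →L[ℂ] H) x))
    have hcu : (↑u⁻¹ : H →L[ℂ] H) * T = T * ↑u⁻¹ := by
      have : Commute (u : H →L[ℂ] H) T := by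
        rw [hu]
        exact (Commute.one_left _).sub_left ((Commute.refl _).smul_left _)
      exact this.units_inv_left.eq
    refine ⟨(↑u⁻¹ : H →L[ℂ] H) ((Γ : H →L[ℂ] H) m), comm_inv d s _ hcu _ (hΓ1 _ hm1), ?_⟩
    have h1 := hΓW Γ hΓB hΓ2 _ hm2
    rw [← mul_apply_eq_comp, hΓT, mul_apply_eq_comp, mul_apply_eq_comp, map_sub (Γ : H →L[ℂ] H),
      ← mul_apply_eq_comp (Γ : H →L[ℂ] H), Units.mul_inv, map_sub (↑u⁻¹ : H →L[ℂ] H),
      ← mul_apply_eq_comp 1, one_mul, ← mul_apply_eq_comp (↑u⁻¹ : H →L[ℂ] H), Units.inv_mul] at h1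
    simpa using h1
  have hTW : ∀ y, W y → W (T y) := by
    intro y hy
    have h0 : s.p1 (P (T y)) = 0 := by
      refine vec_ext d.e _ _ fun k => ?_
      rw [inner_zero_right]
      refine range_inter d k _ fun w _ hw => ?_
      obtain ⟨m, hm1, hm2⟩ := Pw w hw y
      refine ⟨s.p1 m, ?_⟩
      have h1 : P (T y) = T m - w • m := by
        refine hPu _ _ (by rw [map_sub, map_smul, p2_T, hm1]; simp) ?_
        have := hWsub _ _ hm2 (hWsmul (-w) _ hy)
        convert this using 1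
        rw [map_sub, smul_sub, neg_smul]; abel
      rw [h1, map_sub, map_smul, p1_T, hm1, map_zero, add_zero]
    have h1 : P (T y) = 0 := by rw [eq_i1 s _ (hP1 (T y)), h0, map_zero]
    have := hPW (T y)
    rwa [h1, sub_zero] at this
  set y := s.i2 (d.e 0) - P (s.i2 (d.e 0)) with hy
  have hyW : ∀ n : ℕ, W ((T ^ n) y) := by
    intro n
    induction n with
    | zero => simpa using hPW _
    | succ n ih => rw [pow_succ', mul_apply_eq_comp]; exact hTW _ ih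
  have hy2 : s.p2 y = d.e 0 := by rw [hy, map_sub, hP1, s.h22, sub_zero]
  have hWeq : ∀ z, W z → z = (1 - P) (s.i2 (s.p2 z)) := by
    intro z hz
    have h1 := hWsub _ _ hz (hPW (s.i2 (s.p2 z)))
    have h2 := hWM _ h1 (by rw [map_sub, map_sub, hP1, s.h22]; simp)
    simpa [sub_eq_zero] using h2
  have := of_bdd d s y (‖1 - P‖ * (‖s.i2‖ * 1)) fun n => by
    rw [hWeq _ (hyW n)]
    refine (ContinuousLinearMap.le_opNorm _ _).trans (mul_le_mul_of_nonneg_left ?_ (norm_nonneg _))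
    refine (s.i2.le_opNorm _).trans (mul_le_mul_of_nonneg_left ?_ (norm_nonneg _))
    rw [p2_Tpow, d.Spow_norm, hy2, d.e.orthonormal.1 0]
  rw [hy2] at this
  have h1 := d.e.orthonormal.1 0
  simp only [this, norm_zero] at h1
  exact zero_ne_one h1

/-- The splitting of the Hilbert square. -/
noncomputable def sqSplit (E : Type*) [NormedAddCommGroup E] [InnerProductSpace ℂ E] :
    Split E (WithLp 2 (E × E)) where
  i1 := ((WithLp.prodContinuousLinearEquiv 2 ℂ E E).symm : E × E →L[ℂ] WithLp 2 (E × E)).comp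
    (ContinuousLinearMap.inl ℂ E E)
  i2 := ((WithLp.prodContinuousLinearEquiv 2 ℂ E E).symm : E × E →L[ℂ] WithLp 2 (E × E)).comp
    (ContinuousLinearMap.inr ℂ E E)
  p1 := WithLp.fstL 2 ℂ E E
  p2 := WithLp.sndL 2 ℂ E E
  h11 _ := rfl
  h12 _ := rfl
  h21 _ := rfl
  h22 _ := rfl
  hid x := by
    apply (WithLp.prodContinuousLinearEquiv 2 ℂ E E).injective
    simp
    rfl

end Pool.Agent.H.MP_908b95_an
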